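import Pool.Agent.Results.MP_321647_nt.CandidateRadicands
import Pool.Agent.Q118.UF.Coll

/-!
# The class number of `ℚ(√p)` from collisions of products of tiny primes

For a quadratic field `K` let `κ(y, k)` be the probability that two independent random ideals whose
norms are products of `k` distinct primes of the interval `(y, 2y]` lie in the same ideal class.

For all `a > 2`, `ε > 0` and `H` the following holds for 100% of the primes `p`, for `K = ℚ(√p)` with
class number `h`: for suitable `y` and `k` with `2 y ≤ (log p)^a` and `2 k ≤ log p / log log p`,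

* `1 ≤ h κ(y, k) ≤ 1 + ε`;
* `h` and the least integer `≥ 1 / κ(y, k)` are equal if one of them is at most `H`.

In particular the class number is one if and only if `κ(y, k) > 3/4`.
-/

set_option autoImplicit false

namespace Pool.Agent.Results.MP_d0fd9b_nt.ClassNumberFromCollisions

open Filter Finset NumberField
open scoped Classical

/-- The number of the ideals of the ring of integers of `K` that have the class `C` and whose norm is a
product of `k` distinct primes of the interval `(y, 2y]`. -/
noncomputable def cnt (K : Type) [Field K] [NumberField K] (y k : ℕ) (C : ClassGroup (𝓞 K)) : ℕ :=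
  ∑ s ∈ ((Finset.Ioc y (2 * y)).filter Nat.Prime).powersetCard k,
    Nat.card {I : nonZeroDivisors (Ideal (𝓞 K)) //
      Ideal.absNorm (I : Ideal (𝓞 K)) = ∏ p ∈ s, p ∧ ClassGroup.mk0 I = C}

/-- The number of the ideals whose norm is a product of `k` distinct primes of `(y, 2y]`. -/
noncomputable def total (K : Type) [Field K] [NumberField K] (y k : ℕ) : ℕ :=
  ∑ C : ClassGroup (𝓞 K), cnt K y k C

/-- The probability that two independent random ideals whose norms are products of `k` distinct primes
of `(y, 2y]` are in the same class. -/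
noncomputable def kappa (K : Type) [Field K] [NumberField K] (y k : ℕ) : ℝ :=
  (∑ C : ClassGroup (𝓞 K), (cnt K y k C : ℝ) ^ 2) / (total K y k : ℝ) ^ 2

/-- The class number. -/
noncomputable def h (K : Type) [Field K] [NumberField K] : ℕ := Nat.card (ClassGroup (𝓞 K))

/-- The property of the prime `p` in the theorem. -/
def Good (a ε : ℝ) (H p : ℕ) : Prop :=
  ∀ (K : Type) [Field K] [NumberField K], Module.finrank ℚ K = 2 →
    (∃ x : K, x ^ 2 = (p : K)) →
    ∃ y k : ℕ, 2 * (y : ℝ) ≤ (Real.log p) ^ a ∧
      2 * (k : ℝ) ≤ Real.log p / Real.log (Real.log p) ∧ 0 < total K y k ∧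
      1 ≤ h K * kappa K y k ∧ h K * kappa K y k ≤ 1 + ε ∧
      (h K ≤ H ∨ ⌈1 / kappa K y k⌉₊ ≤ H → h K = ⌈1 / kappa K y k⌉₊) ∧
      (h K = 1 ↔ 3 / 4 < kappa K y k)

theorem good_of {a ε : ℝ} {H p : ℕ} (hε : 0 < ε)
    (hg : Pool.Agent.Results.MP_321647_nt.CandidateRadicands.Good a (min ε (1 / (H + 2))) p) :
    Good a ε H p := by
  intro K _ _ hK hx
  obtain ⟨⟨y, k, hy, hk, hpos, heq⟩, -, -⟩ := hg K hK hx
  have hH0 : (0 : ℝ) ≤ H := Nat.cast_nonneg H
  have hmin : 0 < min ε (1 / ((H : ℝ) + 2)) := lt_min hε (by positivity)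
  obtain ⟨h1, h2⟩ := Pool.Agent.Q118.UF.collision
    (fun C => Pool.Agent.Results.MP_321647_nt.CandidateRadicands.cnt K y k C) hpos heq
  have hh : 0 < h K := Nat.card_pos
  have hκ1 : 1 ≤ (h K : ℝ) * kappa K y k := h1
  have hκ2 : (h K : ℝ) * kappa K y k ≤ 1 + min ε (1 / ((H : ℝ) + 2)) := h2
  have hκ0 : 0 < kappa K y k := by
    by_contra hcon
    push Not at hcon
    have : (0 : ℝ) < h K := by exact_mod_cast hh
    nlinarith
  have hro := Pool.Agent.Q118.UF.read_off (h := h K) (H := H) (κ := kappa K y k)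
    (ε := min ε (1 / ((H : ℝ) + 2)))
    ((mul_le_mul_of_nonneg_right (min_le_right _ _) (by positivity)).trans (by
      rw [div_mul_eq_mul_div, one_mul, div_le_one (by positivity)]; linarith)) hmin hh hκ1 hκ2
  refine ⟨y, k, hy, hk, hpos, hκ1, hκ2.trans (by linarith [min_le_left ε (1 / ((H : ℝ) + 2))]), ?_, ?_⟩
  · intro hor
    rcases hor with h3 | h3
    · rw [min_eq_left (by omega)] at hro
      have := min_le_iff.1 hro.ge
      omega
    · rw [min_eq_left (b := H + 1) (by omega : ⌈1 / kappa K y k⌉₊ ≤ H + 1)] at hro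
      have := min_le_iff.1 hro.le
      omega
  · have hhr : (1 : ℝ) ≤ h K := by exact_mod_cast hh
    constructor
    · intro h3
      rw [h3] at hκ1
      push_cast at hκ1
      linarith
    · intro h3
      by_contra h4
      have h5 : (2 : ℝ) ≤ h K := by
        have : 2 ≤ h K := by omega
        exact_mod_cast this
      have h6 : min ε (1 / ((H : ℝ) + 2)) ≤ 1 / 2 := (min_le_right _ _).trans (by
        rw [div_le_div_iff₀ (by positivity) (by norm_num)]; linarith)
      nlinarith

/-- For all `a > 2`, `ε > 0` and `H` the proportion of the primes `p ≤ X` without the property `Good`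
tends to zero. -/
theorem result (a ε : ℝ) (H : ℕ) (ha : 2 < a) (hε : 0 < ε) :
    Tendsto (fun X : ℕ => (((Finset.Icc 1 X).filter (fun p => p.Prime ∧ ¬ Good a ε H p)).card : ℝ) /
      (((Finset.Icc 1 X).filter Nat.Prime).card : ℝ)) atTop (nhds 0) := by
  have hH0 : (0 : ℝ) ≤ H := Nat.cast_nonneg H
  have hmin : 0 < min ε (1 / ((H : ℝ) + 2)) := lt_min hε (by positivity)
  have h1 := Pool.Agent.Results.MP_321647_nt.CandidateRadicands.almost Nat.Prime a
    (min ε (1 / ((H : ℝ) + 2))) (by
      convert Pool.Agent.Y892.UF.prime_lim a (min ε (1 / ((H : ℝ) + 2))) ha hmin)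
  unfold Pool.Agent.Results.MP_321647_nt.CandidateRadicands.AlmostAll at h1
  have h2 : Tendsto (fun X : ℕ => (((Finset.Icc 1 X).filter (fun p => p.Prime ∧
        ¬ Pool.Agent.Results.MP_321647_nt.CandidateRadicands.Good a
          (min ε (1 / ((H : ℝ) + 2))) p)).card : ℝ) /
      (((Finset.Icc 1 X).filter Nat.Prime).card : ℝ)) atTop (nhds 0) := by
    convert h1
  refine squeeze_zero (fun X => by positivity) (fun X => ?_) h2
  apply div_le_div_of_nonneg_right _ (Nat.cast_nonneg _)
  have h3 : ((Finset.Icc 1 X).filter (fun p => p.Prime ∧ ¬ Good a ε H p)) ⊆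
      ((Finset.Icc 1 X).filter (fun p => p.Prime ∧
        ¬ Pool.Agent.Results.MP_321647_nt.CandidateRadicands.Good a (min ε (1 / ((H : ℝ) + 2))) p)) := by
    intro p hp
    rw [Finset.mem_filter] at hp ⊢
    exact ⟨hp.1, hp.2.1, fun hg => hp.2.2 (good_of hε hg)⟩
  exact_mod_cast Finset.card_le_card h3

end Pool.Agent.Results.MP_d0fd9b_nt.ClassNumberFromCollisions
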